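import Pool.Agent.P.MP_f0e779_lc.Counter

open Pool.Agent.P.MP_f0e779_lc

/-- There is a transitive model of ZF in which every countable product of compact metrizable
spaces is compact, while some countable product of compact metrizable spaces is not
metrizable. -/
theorem Pool.Agent.Results.MP_f0e779_lc.NotImplies.result :
    ∃ M : Set ZFSet.{0}, TransModelZF M ∧ CPMCC M ∧ ¬ CPMCM M := main
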